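import Pool.Agent.H52.HMS.LBase

/-!
# HMS box 1, module LPAS: a complete size reduction
-/

set_option autoImplicit false

namespace Pool.HMS

open TMLib Finset

namespace LPAS

/-- the first `t` pairs of row `n`, after all pairs of the rows above -/
def seq (n t : ℕ) : List (ℕ × ℕ) := pairs n ++ (List.range t).map fun u => (n, n - 1 - u)

theorem seq_zero (n : ℕ) : seq n 0 = pairs n := by simp [seq]

theorem seq_succ (n t : ℕ) : seq n (t + 1) = seq n t ++ [(n, n - 1 - t)] := by
  simp [seq, List.range_succ]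

theorem seq_self (n : ℕ) : seq n n = pairs (n + 1) := by
  unfold seq pairs
  rw [List.range_succ, List.flatMap_append]
  congr 1
  rw [List.flatMap_singleton]
  apply List.ext_getElem
  · simp
  · intro i h1 h2
    simp

/-- invariant: rows above `n` are reduced, `t` columns of row `n` are reduced -/
structure Inv (D m : ℕ) (B : Mat) (A : ℚ) (s0 : Mat × Mat) (n t : ℕ) (s : Mat × Mat) : Prop where
  uni : Unimod D s.1 s.2
  rr_eq : ∀ l < D, rr (gr D m B s.1) l = rr (gr D m B s0.1) l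
  red : ∀ a < n, a < D → ∀ l < a, |mu (gr D m B s.1) a l| ≤ 1 / 2
  row : n < D → ∀ l < n, (n ≤ l + t → |mu (gr D m B s.1) n l| ≤ 1 / 2) ∧
    |mu (gr D m B s.1) n l| ≤ 2 ^ t * A
  rest : ∀ a, n < a → a < D → ∀ l < a, |mu (gr D m B s.1) a l| ≤ A

theorem Inv.next {D m : ℕ} {B : Mat} {A : ℚ} {s0 s : Mat × Mat} {n : ℕ}
    (h : Inv D m B A s0 n n s) : Inv D m B A s0 (n + 1) 0 s := by
  refine ⟨h.uni, h.rr_eq, ?_, ?_, ?_⟩
  · intro a ha haD l hl
    rcases Nat.lt_or_ge a n with h1 | h1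
    · exact h.red a h1 haD l hl
    · have h2 : a = n := by omega
      subst h2
      exact (h.row haD l hl).1 (by omega)
  · intro hn l hl
    refine ⟨fun h1 => by omega, ?_⟩
    rw [pow_zero, one_mul]
    exact h.rest (n + 1) (by omega) hn l hl
  · intro a ha haD l hl
    exact h.rest a (by omega) haD l hl

theorem floor_half (x : ℚ) : |x - ((⌊x + 1 / 2⌋ : ℤ) : ℚ)| ≤ 1 / 2 := by
  have h1 := Int.floor_le (x + 1 / 2)
  have h2 := Int.lt_floor_add_one (x + 1 / 2)
  rw [abs_le]
  constructor <;> linarith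

theorem floor_le_two {x : ℚ} (h : 1 / 2 < |x|) : |((⌊x + 1 / 2⌋ : ℤ) : ℚ)| ≤ 2 * |x| := by
  have h1 := floor_half x
  have h2 : |((⌊x + 1 / 2⌋ : ℤ) : ℚ)| ≤ |x| + |x - ((⌊x + 1 / 2⌋ : ℤ) : ℚ)| := by
    have := abs_sub_abs_le_abs_sub ((⌊x + 1 / 2⌋ : ℤ) : ℚ) x
    rw [abs_sub_comm] at this
    linarith
  linarith

theorem Inv.step (h1 : S_LSCH) (h3 : S_LUNI) (h4 : S_LGRM) (h5 : S_LOPG) {D m : ℕ} {B : Mat}
    {X A : ℚ} {s0 s : Mat × Mat} {n t : ℕ} (hV : LVal D m B X) (hA : 1 ≤ A)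
    (h : Inv D m B A s0 n t s) (ht : t < n) (hn : n < D) :
    Inv D m B A s0 n (t + 1) (srS D m B s (n, n - 1 - t)) := by
  set j := n - 1 - t with hj
  have hjn : j < n := by omega
  have hjD : j < D := by omega
  obtain ⟨-, -, -, -, hL⟩ := h4 D m B X s.1 s.2 hV h.uni
  have hA2 : ∀ u : ℕ, 1 ≤ 2 ^ u * A := by
    intro u
    have : (1 : ℚ) ≤ 2 ^ u := one_le_pow₀ (by norm_num)
    nlinarith
  unfold srS
  simp only
  split_ifs with hc
  · refine ⟨h.uni, h.rr_eq, h.red, ?_, h.rest⟩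
    intro _ l hl
    refine ⟨fun h6 => ?_, ?_⟩
    · rcases Nat.lt_or_ge j l with h7 | h7
      · exact (h.row hn l hl).1 (by omega)
      · have h8 : l = j := by omega
        rw [h8]; exact hc
    · have h6 := (h.row hn l hl).2
      have h7 := hA2 t
      rw [pow_succ]
      linarith
  · rw [not_le] at hc
    set x := mu (gr D m B s.1) n j with hx
    set c : ℚ := ((⌊x + 1 / 2⌋ : ℤ) : ℚ) with hcd
    have hL2 := h5 D m B s _ _ n j c hL hn hjn
    obtain ⟨-, hr, hm⟩ := h1 D _ _ _ hL2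
    have hmu : ∀ a < D, ∀ l < D, mu (gr D m B (lop D n j c s).1) a l =
        if a = n then mu (gr D m B s.1) n l - c * mu (gr D m B s.1) j l
        else mu (gr D m B s.1) a l := hm
    refine ⟨?_, ?_, ?_, ?_, ?_⟩
    · exact h3.2.1 D n j c s hn hjD (by omega) (IsI.int _) h.uni
    · intro l hl
      rw [hr l hl, h.rr_eq l hl]
    · intro a ha haD l hl
      rw [hmu a haD l (by omega), if_neg (by omega)]
      exact h.red a ha haD l hl
    · intro _ l hl
      rw [hmu n hn l (by omega), if_pos rfl]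
      have h6 := h.row hn l hl
      have hxb := (h.row hn j hjn).2
      rcases lt_trichotomy l j with h7 | h7 | h7
      · refine ⟨fun h8 => by omega, ?_⟩
        have h8 : |mu (gr D m B s.1) j l| ≤ 1 / 2 := h.red j hjn hjD l h7
        have h9 : |c * mu (gr D m B s.1) j l| ≤ |x| := by
          rw [abs_mul]
          have h10 := floor_le_two hc
          calc |c| * |mu (gr D m B s.1) j l| ≤ (2 * |x|) * (1 / 2) := by gcongr
            _ = |x| := by ring
        have h10 := abs_sub (mu (gr D m B s.1) n l) (c * mu (gr D m B s.1) j l)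
        rw [pow_succ]
        linarith [h6.2]
      · rw [h7, hL.one j hjD, mul_one]
        have h8 := floor_half x
        refine ⟨fun _ => h8, h8.trans ?_⟩
        have := hA2 (t + 1)
        linarith
      · rw [hL.tri j hjD l (by omega) h7, mul_zero, sub_zero]
        refine ⟨fun h8 => h6.1 (by omega), h6.2.trans ?_⟩
        rw [pow_succ]
        have := hA2 t
        linarith
    · intro a ha haD l hl
      rw [hmu a haD l (by omega), if_neg (by omega)]
      exact h.rest a ha haD l hl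

theorem sum_le_of {D : ℕ} {f : ℕ → ℚ} {K : ℚ} (h : ∀ l < D, f l ≤ K) :
    ∑ l ∈ range D, f l ≤ D * K := by
  have := Finset.sum_le_card_nsmul (range D) f K fun l hl => h l (Finset.mem_range.1 hl)
  rwa [Finset.card_range, nsmul_eq_mul] at this

theorem term_le {y r b M : ℚ} (hr : 0 < r) (hrM : r ≤ M) (hy : |y| ≤ b) :
    y * r * y ≤ b ^ 2 * M := by
  have h1 : y * r * y = |y| ^ 2 * r := by rw [sq_abs]; ring
  rw [h1]
  gcongr

theorem Inv.weak (h4 : S_LGRM) {D m : ℕ} {B : Mat} {X : ℚ} {s0 s : Mat × Mat} {n t : ℕ}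
    (hV : LVal D m B X) (hr0 : ∀ l < D, rr (gr D m B s0.1) l ≤ m * X ^ 2)
    (hM : 1 ≤ m * X ^ 2)
    (h : Inv D m B (D * (m * X ^ 2) ^ D) s0 n t s) (htn : t ≤ n) (hn : n < D ∨ t = 0) (i : ℕ)
    (hi : i < D) : gr D m B s.1 i i ≤ mid D m X := by
  obtain ⟨-, -, -, -, hL⟩ := h4 D m B X s.1 s.2 hV h.uni
  set M0 : ℚ := m * X ^ 2 with hM0
  set A : ℚ := D * M0 ^ D with hA
  have hD1 : (1 : ℚ) ≤ D := by exact_mod_cast hV.one
  have hA1 : 1 ≤ A := by
    have : 1 ≤ M0 ^ D := one_le_pow₀ hM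
    rw [hA]
    nlinarith
  have h2D : (1 : ℚ) ≤ 2 ^ D := one_le_pow₀ (by norm_num)
  have hA2 : A ≤ 2 ^ D * A := by nlinarith
  have hb : ∀ l < D, |mu (gr D m B s.1) i l| ≤ 2 ^ D * A := by
    intro l hl
    rcases lt_trichotomy l i with h6 | h6 | h6
    · rcases lt_trichotomy i n with h7 | h7 | h7
      · have := h.red i h7 hi l h6
        linarith
      · subst h7
        have := (h.row hi l h6).2
        refine this.trans ?_
        gcongr
        · norm_num
        · omega
      · have := h.rest i h7 hi l h6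
        linarith
    · rw [h6, hL.one i hi, abs_one]
      linarith
    · rw [hL.tri i hi l hl h6, abs_zero]
      linarith
  rw [hL.eq i hi i hi]
  refine (sum_le_of (K := (2 ^ D * A) ^ 2 * M0) ?_).trans (le_of_eq ?_)
  · intro l hl
    refine term_le (hL.pos l hl) ?_ (hb l hl)
    rw [h.rr_eq l hl]
    exact hr0 l hl
  · have h6 : (4 : ℚ) ^ D = 2 ^ (D * 2) := by rw [mul_comm, pow_mul]; norm_num
    rw [mid, hA, h6, ← hM0]
    ring

theorem Inv.final (h4 : S_LGRM) {D m : ℕ} {B : Mat} {X A : ℚ} {s0 s : Mat × Mat}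
    (hV : LVal D m B X) (hr0 : ∀ l < D, rr (gr D m B s0.1) l ≤ m * X ^ 2)
    (hM : 1 ≤ m * X ^ 2) (h : Inv D m B A s0 D 0 s) : LInv D m B X s := by
  obtain ⟨-, -, -, -, hL⟩ := h4 D m B X s.1 s.2 hV h.uni
  refine ⟨h.uni, fun l hl => ?_, fun i hi => ?_⟩
  · rw [h.rr_eq l hl]
    exact hr0 l hl
  · rw [hL.eq i hi i hi]
    apply sum_le_of
    intro l hl
    have h6 := term_le (b := 1) (hL.pos l hl) (M := m * X ^ 2) (by rw [h.rr_eq l hl]; exact hr0 l hl)
      (y := mu (gr D m B s.1) i l) ?_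
    · linarith
    · rcases lt_trichotomy l i with h6 | h6 | h6
      · have := h.red i hi hi l h6
        linarith
      · rw [h6, hL.one i hi, abs_one]
      · rw [hL.tri i hi l hl h6, abs_zero]
        norm_num

theorem Inv.init (h2 : S_LDET) (h4 : S_LGRM) {D m : ℕ} {B : Mat} {X : ℚ} {s : Mat × Mat}
    (hV : LVal D m B X) (hI : LInv D m B X s) (hM : 1 ≤ m * X ^ 2) :
    Inv D m B (D * (m * X ^ 2) ^ D) s 0 0 s := by
  obtain ⟨-, -, hint, -, hL⟩ := h4 D m B X s.1 s.2 hV hI.uni
  refine ⟨hI.uni, fun l _ => rfl, fun a ha => by omega, fun _ l hl => by omega, ?_⟩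
  intro a _ haD l hl
  set M0 : ℚ := m * X ^ 2 with hM0
  set G := gr D m B s.1 with hG
  have hlD : l < D := by omega
  set M : ℚ := 1 + ∑ i ∈ range D, ∑ j ∈ range D, |G i j| with hMd
  have hGM : ∀ i < D, ∀ j < D, |G i j| ≤ M := by
    intro i hi j hj
    have h6 : |G i j| ≤ ∑ j ∈ range D, |G i j| :=
      Finset.single_le_sum (f := fun j => |G i j|) (fun _ _ => abs_nonneg _)
        (Finset.mem_range.2 hj)
    have h7 : ∑ j ∈ range D, |G i j| ≤ ∑ i ∈ range D, ∑ j ∈ range D, |G i j| :=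
      Finset.single_le_sum (f := fun i => ∑ j ∈ range D, |G i j|)
        (fun _ _ => Finset.sum_nonneg fun _ _ => abs_nonneg _) (Finset.mem_range.2 hi)
    linarith
  have hM1 : 1 ≤ M := by
    have : 0 ≤ ∑ i ∈ range D, ∑ j ∈ range D, |G i j| :=
      Finset.sum_nonneg fun _ _ => Finset.sum_nonneg fun _ _ => abs_nonneg _
    linarith
  have hdet := (h2 D G (mu G) (rr G) M hL (fun i _ j _ => hint i j) hM1 hGM (l + 1) hlD).2.1
  rw [Finset.prod_range_succ] at hdet
  have hprod : ∏ l' ∈ range l, rr G l' ≤ M0 ^ l := by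
    have h6 : ∏ l' ∈ range l, rr G l' ≤ ∏ _l' ∈ range l, M0 := by
      apply Finset.prod_le_prod
      · intro i hi
        rw [Finset.mem_range] at hi
        exact (hL.pos i (by omega)).le
      · intro i hi
        rw [Finset.mem_range] at hi
        exact hI.rb i (by omega)
    rwa [Finset.prod_const, Finset.card_range] at h6
  have hr := hL.pos l hlD
  have hlow : 1 ≤ M0 ^ l * rr G l := hdet.trans (by gcongr)
  have hterm : mu G a l * rr G l * mu G a l ≤ D * M0 := by
    refine le_trans ?_ (hI.nb a haD)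
    rw [← hG, hL.eq a haD a haD]
    exact Finset.single_le_sum (f := fun l => mu G a l * rr G l * mu G a l)
      (fun i hi => by
        rw [Finset.mem_range] at hi
        have h6 : mu G a i * rr G i * mu G a i = (mu G a i) ^ 2 * rr G i := by ring
        rw [h6]
        exact mul_nonneg (sq_nonneg _) (hL.pos i hi).le) (Finset.mem_range.2 hlD)
  have hD1 : (1 : ℚ) ≤ D := by exact_mod_cast hV.one
  have hM0l : 0 < M0 ^ l := by positivity
  have hsq : (mu G a l) ^ 2 ≤ D * M0 ^ (l + 1) := by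
    have h6 : (mu G a l) ^ 2 * 1 ≤ (mu G a l) ^ 2 * (M0 ^ l * rr G l) := by gcongr
    have h7 : (mu G a l) ^ 2 * (M0 ^ l * rr G l) = (mu G a l * rr G l * mu G a l) * M0 ^ l := by
      ring
    have h8 : (mu G a l * rr G l * mu G a l) * M0 ^ l ≤ D * M0 * M0 ^ l := by gcongr
    rw [pow_succ M0 l]
    linarith
  have hsq2 : D * M0 ^ (l + 1) ≤ D * M0 ^ D := by
    have : M0 ^ (l + 1) ≤ M0 ^ D := pow_le_pow_right₀ hM hlD
    gcongr
  have hA1 : 1 ≤ D * M0 ^ D := by
    have : 1 ≤ M0 ^ D := one_le_pow₀ hM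
    nlinarith
  apply abs_le_of_sq_le_sq
  · nlinarith
  · linarith

end LPAS

open LPAS in
theorem lpas_thm (h1 : S_LSCH) (h2 : S_LDET) (h3 : S_LUNI) (h4 : S_LGRM) (h5 : S_LOPG) :
    S_LPAS := by
  intro D m B X s hV hI
  obtain ⟨hm1, -⟩ := h4 D m B X s.1 s.2 hV hI.uni
  have hM : 1 ≤ m * X ^ 2 := by
    have h6 : (1 : ℚ) ≤ m := by exact_mod_cast hm1
    have h7 : 1 ≤ X ^ 2 := one_le_pow₀ hV.ge
    nlinarith
  set A : ℚ := D * (m * X ^ 2) ^ D with hA
  have hD1 : (1 : ℚ) ≤ D := by exact_mod_cast hV.one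
  have hA1 : 1 ≤ A := by
    have : 1 ≤ (m * X ^ 2) ^ D := one_le_pow₀ hM
    rw [hA]
    nlinarith
  set F := fun l' : List (ℕ × ℕ) => l'.foldl (srS D m B) s with hF
  have hrow : ∀ n, n < D → Inv D m B A s n 0 (F (seq n 0)) →
      ∀ t ≤ n, Inv D m B A s n t (F (seq n t)) := by
    intro n hn h0 t
    induction t with
    | zero => intro _; exact h0
    | succ t ih =>
      intro ht
      have h6 := ih (by omega)
      have h7 := h6.step h1 h3 h4 h5 hV hA1 (by omega) hn
      have h8 : F (seq n (t + 1)) = srS D m B (F (seq n t)) (n, n - 1 - t) := by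
        rw [hF]
        simp only
        rw [seq_succ, List.foldl_append]
        rfl
      rw [h8]
      exact h7
  have hall : ∀ n, n ≤ D → Inv D m B A s n 0 (F (seq n 0)) := by
    intro n
    induction n with
    | zero =>
      intro _
      have h6 : F (seq 0 0) = s := by
        rw [hF]
        simp [seq, pairs]
      rw [h6]
      exact Inv.init h2 h4 hV hI hM
    | succ n ih =>
      intro hn
      have h6 := (hrow n (by omega) (ih (by omega)) n le_rfl).next
      rwa [seq_self, ← seq_zero] at h6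
  have hfin : Inv D m B A s D 0 (passS D m B s) := by
    have := hall D le_rfl
    rwa [seq_zero] at this
  refine ⟨?_, hfin.final h4 hV hI.rb hM, hfin.rr_eq, fun i hi l hl => hfin.red i hi hi l hl⟩
  -- prefixes
  have hpre2 : ∀ n, n < D → ∀ t ≤ n,
      (∀ l', l' <+: seq n 0 → ∃ n' t', t' ≤ n' ∧ (n' < D ∨ t' = 0) ∧
        Inv D m B A s n' t' (F l')) →
      ∀ l', l' <+: seq n t → ∃ n' t', t' ≤ n' ∧ (n' < D ∨ t' = 0) ∧ Inv D m B A s n' t' (F l') := by
    intro n hn t
    induction t with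
    | zero => intro _ h6; exact h6
    | succ t ih =>
      intro ht h6 l' hl'
      rw [seq_succ, List.prefix_concat_iff] at hl'
      rcases hl' with h7 | h7
      · rw [← seq_succ] at h7
        rw [h7]
        exact ⟨n, t + 1, ht, Or.inl hn, hrow n hn (hall n hn.le) (t + 1) ht⟩
      · exact ih (by omega) h6 l' h7
  have hpre : ∀ n, n ≤ D → ∀ l', l' <+: seq n 0 → ∃ n' t', t' ≤ n' ∧ (n' < D ∨ t' = 0) ∧
      Inv D m B A s n' t' (F l') := by
    intro n
    induction n with
    | zero =>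
      intro _ l' hl'
      have h6 : l' = [] := by
        have : seq 0 0 = [] := by simp [seq, pairs]
        rw [this] at hl'
        exact List.prefix_nil.1 hl'
      subst h6
      exact ⟨0, 0, le_rfl, Or.inr rfl, Inv.init h2 h4 hV hI hM⟩
    | succ n ih =>
      intro hn l' hl'
      rw [seq_zero, ← seq_self] at hl'
      exact hpre2 n (by omega) n le_rfl (ih (by omega)) l' hl'
  intro l' hl'
  rw [← seq_zero] at hl'
  obtain ⟨n', t', h6, h7, h8⟩ := hpre D le_rfl l' hl'
  exact ⟨h8.uni, h8.rr_eq, fun i hi => h8.weak h4 hV hI.rb hM h6 h7 i hi⟩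

end Pool.HMS
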