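import Pool.Agent.H91.HMS.RLib

/-!
# HMS box 2, module RCUT: the geometric invariant is preserved by a cut
-/

set_option autoImplicit false

namespace Pool.HMS

open TMLib Finset

namespace RCUT

theorem sum_split {D a : ℕ} (ha : a ≤ D) (f : ℕ → ℚ) :
    ∑ j ∈ range (D + 1), f j = f a + ∑ j ∈ (range (D + 1)).filter (· ≠ a), f j := by
  have h1 := Finset.sum_filter_add_sum_filter_not (range (D + 1)) (fun j => j = a) f
  have h2 : (range (D + 1)).filter (fun j => j = a) = {a} := by
    ext j
    simp only [Finset.mem_filter, Finset.mem_range, Finset.mem_singleton]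
    omega
  rw [h2, Finset.sum_singleton] at h1
  exact h1.symm

theorem affG {D a : ℕ} (ha : a ≤ D) (n : ℕ → ℚ) (st : RS) {j : ℕ} (hj : j ≤ D) (x : ℕ → ℚ) :
    aff D (ent (rCut D a n st).2.1 j) x =
      if j = a then 16 * (D : ℚ) ^ 3 * aff D (ent st.2.1 a) x +
        ∑ k ∈ (range (D + 1)).filter (· ≠ a), n k * aff D (ent st.2.1 k) x
      else (16 * (D : ℚ) ^ 3 - n j) * aff D (ent st.2.1 j) x := by
  have hent : ∀ i ≤ D, ent (rCut D a n st).2.1 j i = if j = a then
        16 * (D : ℚ) ^ 3 * ent st.2.1 a i + ∑ k ∈ (range (D + 1)).filter (· ≠ a), n k * ent st.2.1 k i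
      else (16 * (D : ℚ) ^ 3 - n j) * ent st.2.1 j i := by
    intro i hi
    show ent (tabM (D + 1) (D + 1) _) j i = _
    rw [ent_tabM, if_pos ⟨by omega, by omega⟩]
  have h1 : aff D (ent (rCut D a n st).2.1 j) x = aff D (fun i => if j = a then
        16 * (D : ℚ) ^ 3 * ent st.2.1 a i + ∑ k ∈ (range (D + 1)).filter (· ≠ a), n k * ent st.2.1 k i
      else (16 * (D : ℚ) ^ 3 - n j) * ent st.2.1 j i) x := by
    apply aff_congr
    · exact hent 0 (Nat.zero_le _)
    · intro i hi
      rw [hent (i + 1) (by omega)]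
  rw [h1]
  by_cases hja : j = a
  · simp only [if_pos hja]
    rw [aff_eq, aff_eq]
    have h2 : lin D (fun i => 16 * (D : ℚ) ^ 3 * ent st.2.1 a (i + 1) +
        ∑ k ∈ (range (D + 1)).filter (· ≠ a), n k * ent st.2.1 k (i + 1)) x =
        16 * (D : ℚ) ^ 3 * lin D (fun i => ent st.2.1 a (i + 1)) x +
        ∑ k ∈ (range (D + 1)).filter (· ≠ a), n k * lin D (fun i => ent st.2.1 k (i + 1)) x := by
      have h3 : ∀ k, n k * lin D (fun i => ent st.2.1 k (i + 1)) x =
          lin D (fun i => n k * ent st.2.1 k (i + 1)) x := fun k => (lin_smul_left _ _ _ _).symm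
      simp_rw [h3]
      rw [← lin_sum_left, ← lin_smul_left]
      unfold lin
      rw [← Finset.sum_add_distrib]
      exact Finset.sum_congr rfl fun i _ => by ring
    rw [h2]
    simp_rw [aff_eq, mul_add]
    rw [Finset.sum_add_distrib]
    ring
  · simp only [if_neg hja]
    rw [aff_eq, aff_eq, lin_smul_left]
    ring

theorem affV {D a : ℕ} (ha : a ≤ D) (n : ℕ → ℚ) (st : RS) {j : ℕ} (hj : j ≤ D) (s : ℕ → ℚ) :
    aff D s (ent (rCut D a n st).1 j) =
      if j = a then aff D s (ent st.1 a)
      else aff D s (ent st.1 a) + 16 * (D : ℚ) ^ 3 / (16 * (D : ℚ) ^ 3 - n j) *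
        (aff D s (ent st.1 j) - aff D s (ent st.1 a)) := by
  have hent : ∀ i < D, ent (rCut D a n st).1 j i = if j = a then ent st.1 a i else
      ent st.1 a i + 16 * (D : ℚ) ^ 3 / (16 * (D : ℚ) ^ 3 - n j) * (ent st.1 j i - ent st.1 a i) := by
    intro i hi
    show ent (tabM (D + 1) D _) j i = _
    rw [ent_tabM, if_pos ⟨by omega, by omega⟩]
  by_cases hja : j = a
  · rw [if_pos hja]
    apply aff_congr rfl
    intro i hi
    rw [hent i hi, if_pos hja]
  · rw [if_neg hja, ← aff_line]
    apply aff_congr rfl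
    intro i hi
    rw [hent i hi, if_neg hja]

end RCUT

open RCUT in
theorem rcut_thm : S_RCUT := by
  intro D a K n st hD ha h hI hn hK
  have hDq : (1 : ℚ) ≤ D := by exact_mod_cast hD
  have hq : ∀ j ≤ D, 0 < 16 * (D : ℚ) ^ 3 - n j := by
    intro j hj
    have h1 := hn j hj
    have h2 : (D : ℚ) ≤ (D : ℚ) ^ 3 := by
      have := pow_le_pow_right₀ hDq (show 1 ≤ 3 by norm_num)
      rwa [pow_one] at this
    linarith
  have hq0 : 0 < 16 * (D : ℚ) ^ 3 := by positivity
  refine ⟨?_, ?_, ?_, ?_, ?_, ?_, ?_⟩
  · show 0 < 16 * (D : ℚ) ^ 3 * st.2.2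
    exact mul_pos hq0 h.pos
  · intro i j
    show IsI (ent (tabM (D + 1) (D + 1) _) i j)
    rw [ent_tabM]
    have hqI : IsI (16 * (D : ℚ) ^ 3) := by
      have : (16 * (D : ℚ) ^ 3) = ((16 * D ^ 3 : ℕ) : ℚ) := by push_cast; ring
      rw [this]
      exact IsI.nat _
    split_ifs with h1 h2
    · apply (hqI.mul (h.intG _ _)).add
      apply IsI.sum
      intro k hk
      rw [Finset.mem_filter, Finset.mem_range] at hk
      exact (hI k (by omega)).mul (h.intG _ _)
    · exact (hqI.sub (hI i (by omega))).mul (h.intG _ _)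
    · exact IsI.zero
  · intro x hx c hc
    show _ = 16 * (D : ℚ) ^ 3 * st.2.2 * x c
    rw [mul_assoc, ← h.rep x hx c hc, sum_split ha, sum_split ha]
    have hentV : ∀ j ≤ D, ent (rCut D a n st).1 j c = if j = a then ent st.1 a c else
        ent st.1 a c + 16 * (D : ℚ) ^ 3 / (16 * (D : ℚ) ^ 3 - n j) * (ent st.1 j c - ent st.1 a c) := by
      intro j hj
      show ent (tabM (D + 1) D _) j c = _
      rw [ent_tabM, if_pos ⟨by omega, by omega⟩]
    rw [affG ha n st ha, if_pos rfl, hentV a ha, if_pos rfl, mul_add, Finset.mul_sum, add_mul,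
      Finset.sum_mul, add_assoc, ← Finset.sum_add_distrib, mul_assoc]
    congr 1
    apply Finset.sum_congr rfl
    intro j hj
    rw [Finset.mem_filter, Finset.mem_range] at hj
    have hjD : j ≤ D := by omega
    rw [affG ha n st hjD, if_neg hj.2, hentV j hjD, if_neg hj.2]
    have h1 := (hq j hjD).ne'
    field_simp
    ring
  · intro x
    show _ = 16 * (D : ℚ) ^ 3 * st.2.2
    rw [← h.one x, sum_split ha, sum_split ha, affG ha n st ha, if_pos rfl, add_assoc,
      ← Finset.sum_add_distrib, mul_add, Finset.mul_sum]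
    congr 1
    apply Finset.sum_congr rfl
    intro j hj
    rw [Finset.mem_filter, Finset.mem_range] at hj
    rw [affG ha n st (by omega : j ≤ D), if_neg hj.2]
    ring
  · intro i hi j hj
    show _ = if i = j then 16 * (D : ℚ) ^ 3 * st.2.2 else 0
    have hV : ∀ k ≤ D, aff D (ent st.2.1 k) (ent (rCut D a n st).1 j) =
        if j = a then (if k = a then st.2.2 else 0) else
        (if k = a then st.2.2 else 0) + 16 * (D : ℚ) ^ 3 / (16 * (D : ℚ) ^ 3 - n j) *
          ((if k = j then st.2.2 else 0) - (if k = a then st.2.2 else 0)) := by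
      intro k hk
      rw [affV ha n st hj, h.dual k hk a ha, h.dual k hk j hj]
    have h1 := (hq j hj).ne'
    rw [affG ha n st hi]
    by_cases hia : i = a
    · rw [if_pos hia, hV a ha]
      have hs : ∑ k ∈ (range (D + 1)).filter (· ≠ a), n k *
          aff D (ent st.2.1 k) (ent (rCut D a n st).1 j) =
          if j = a then 0 else n j * (16 * (D : ℚ) ^ 3 / (16 * (D : ℚ) ^ 3 - n j) * st.2.2) := by
        by_cases hja : j = a
        · rw [if_pos hja]
          apply Finset.sum_eq_zero
          intro k hk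
          rw [Finset.mem_filter, Finset.mem_range] at hk
          rw [hV k (by omega), if_pos hja, if_neg hk.2, mul_zero]
        · rw [if_neg hja, Finset.sum_eq_single j]
          · rw [hV j hj, if_neg hja, if_neg hja, if_pos rfl, sub_zero, zero_add]
          · intro k hk hkj
            rw [Finset.mem_filter, Finset.mem_range] at hk
            rw [hV k (by omega), if_neg hja, if_neg hk.2, if_neg hkj]
            ring
          · intro hj'
            exact absurd (Finset.mem_filter.2 ⟨Finset.mem_range.2 (by omega), hja⟩) hj'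
      rw [hs]
      by_cases hja : j = a
      · rw [if_pos hja, if_pos hja, if_pos rfl, if_pos (hia.trans hja.symm), add_zero]
      · rw [if_neg hja, if_neg hja, if_pos rfl, if_neg (show ¬ a = j from fun h => hja h.symm),
          if_neg (show ¬ i = j from fun h => hja (h.symm.trans hia))]
        field_simp
        ring
    · rw [if_neg hia, hV i hi]
      by_cases hja : j = a
      · rw [if_pos hja, if_neg hia, if_neg (show ¬ i = j from fun h => hia (h.trans hja)), mul_zero]
      · rw [if_neg hja, if_neg hia]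
        by_cases hij : i = j
        · rw [if_pos hij, if_pos hij, hij]
          field_simp
          ring
        · rw [if_neg hij, if_neg hij]
          ring
  · intro j
    exact supp_tabM _ _ _ _
  · intro x hx j hj
    rw [affG ha n st hj]
    split_ifs with hja
    · exact hK x hx
    · exact mul_nonneg (hq j hj).le (h.sub x hx j hj)

end Pool.HMS
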