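import Pool.Agent.H91.HMS.RLib

/-!
# HMS box 2, module RDET: the determinant grows by the product of the scaling factors
-/

set_option autoImplicit false

namespace Pool.HMS

open TMLib Finset

namespace RDET

theorem card_filter {D a : ℕ} (ha : a ≤ D) : ((range (D + 1)).filter (· ≠ a)).card = D := by
  have h : (range (D + 1)).filter (· ≠ a) = (range (D + 1)).erase a := by
    ext j
    simp only [Finset.mem_filter, Finset.mem_erase]
    tauto
  rw [h, Finset.card_erase_of_mem (Finset.mem_range.2 (by omega)), Finset.card_range]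
  omega

theorem prod_zero (D : ℕ) (f : ℕ → ℚ) :
    ∏ j ∈ (range (D + 1)).filter (· ≠ 0), f j = ∏ k : Fin D, f (k + 1) := by
  rw [Finset.prod_filter, Finset.prod_range_succ']
  simp [Finset.prod_range]

theorem prod_succ {D : ℕ} (a : Fin D) (f : ℕ → ℚ) :
    ∏ j ∈ (range (D + 1)).filter (· ≠ (a : ℕ) + 1), f j =
      f 0 * ∏ k : Fin D, (if k = a then 1 else f (k + 1)) := by
  rw [Finset.prod_filter, Finset.prod_range_succ']
  have h0 : (0 : ℕ) ≠ (a : ℕ) + 1 := by omega
  rw [if_pos h0, mul_comm, Finset.prod_range]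
  congr 1
  apply Finset.prod_congr rfl
  intro k _
  by_cases h : k = a
  · subst h
    simp
  · have h1 : ((k : ℕ) + 1) ≠ (a : ℕ) + 1 := by
      intro h2
      apply h
      apply Fin.ext
      omega
    rw [if_pos h1, if_neg h]

theorem sum_succ {D : ℕ} (a : Fin D) (f : ℕ → ℚ) :
    ∑ j ∈ (range (D + 1)).filter (· ≠ (a : ℕ) + 1), f j =
      f 0 + ∑ k : Fin D, (if k = a then 0 else f (k + 1)) := by
  rw [Finset.sum_filter, Finset.sum_range_succ']
  have h0 : (0 : ℕ) ≠ (a : ℕ) + 1 := by omega
  rw [if_pos h0, add_comm, Finset.sum_range]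
  congr 1
  apply Finset.sum_congr rfl
  intro k _
  by_cases h : k = a
  · subst h
    simp
  · have h1 : ((k : ℕ) + 1) ≠ (a : ℕ) + 1 := by
      intro h2
      apply h
      apply Fin.ext
      omega
    rw [if_pos h1, if_neg h]

/-- the linear parts of the functionals sum to zero -/
theorem sum_lin {D : ℕ} {G : ℕ → ℕ → ℚ} {S : ℚ}
    (h : ∀ x, ∑ j ∈ range (D + 1), aff D (G j) x = S) {c : ℕ} (hc : c < D) :
    G 0 (c + 1) = - ∑ k : Fin D, G (k + 1) (c + 1) := by
  have h0 := h (fun _ => 0)
  have h1 := h (fun i => if i = c then 1 else 0)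
  have e0 : ∀ j, aff D (G j) (fun _ => 0) = G j 0 := by
    intro j
    unfold aff
    simp
  have e1 : ∀ j, aff D (G j) (fun i => if i = c then 1 else 0) = G j 0 + G j (c + 1) := by
    intro j
    unfold aff
    simp [hc]
  simp_rw [e0] at h0
  simp_rw [e1] at h1
  rw [Finset.sum_add_distrib, h0] at h1
  have h2 : ∑ j ∈ range (D + 1), G j (c + 1) = 0 := by linarith
  rw [Finset.sum_range_succ', Finset.sum_range] at h2
  linarith

end RDET

open RDET in
theorem rdet_thm : S_RDET := by
  intro D a K n st hD ha h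
  have hDq : (1 : ℚ) ≤ D := by exact_mod_cast hD
  have hq0 : (16 * (D : ℚ) ^ 3) ≠ 0 := by positivity
  set q : ℚ := 16 * (D : ℚ) ^ 3 with hq
  set M : Matrix (Fin D) (Fin D) ℚ := Matrix.of fun c k : Fin D => ent st.2.1 (k + 1) (c + 1)
    with hM
  set M' : Matrix (Fin D) (Fin D) ℚ := Matrix.of fun c k : Fin D =>
    ent (rCut D a n st).2.1 (k + 1) (c + 1) with hM'
  have hS : st.2.2 ≠ 0 := h.pos.ne'
  have hent : ∀ c k : Fin D, M' c k = if (k : ℕ) + 1 = a then
        q * ent st.2.1 a (c + 1) + ∑ j ∈ (range (D + 1)).filter (· ≠ a), n j * ent st.2.1 j (c + 1)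
      else (q - n (k + 1)) * M c k := by
    intro c k
    rw [hM', Matrix.of_apply]
    show ent (tabM (D + 1) (D + 1) _) ((k : ℕ) + 1) ((c : ℕ) + 1) = _
    rw [ent_tabM, if_pos ⟨by omega, by omega⟩]
    rfl
  have hdet : M'.det = (∏ j ∈ (range (D + 1)).filter (· ≠ a), (q - n j)) * M.det := by
    rcases Nat.eq_zero_or_pos a with ha0 | ha0
    · subst ha0
      rw [prod_zero]
      have h1 : M' = M * Matrix.diagonal (fun k : Fin D => q - n (k + 1)) := by
        ext c k
        rw [Matrix.mul_diagonal, hent, if_neg (by omega)]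
        ring
      rw [h1, Matrix.det_mul, Matrix.det_diagonal]
      ring
    · obtain ⟨a', rfl⟩ : ∃ a' : Fin D, a = (a' : ℕ) + 1 := ⟨⟨a - 1, by omega⟩, by simp; omega⟩
      rw [prod_succ]
      set M1 : Matrix (Fin D) (Fin D) ℚ := M.updateCol a' (fun c => ∑ k : Fin D,
        (if k = a' then q - n 0 else n (k + 1) - n 0) • M c k) with hM1
      have h1 : M' = M1 * Matrix.diagonal (fun k : Fin D => if k = a' then 1 else q - n (k + 1)) := by
        ext c k
        rw [Matrix.mul_diagonal, hent]
        by_cases hk : k = a'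
        · rw [if_pos (by rw [hk]), if_pos hk, hk, hM1, Matrix.updateCol_self, mul_one, sum_succ,
            sum_lin h.one c.2]
          have h2 : ∀ k : Fin D, (if k = a' then q - n 0 else n (k + 1) - n 0) • M c k =
              (if k = a' then q * M c a' else 0) +
              (if k = a' then 0 else n (k + 1) * ent st.2.1 (k + 1) (c + 1)) +
              (- n 0) * ent st.2.1 (k + 1) (c + 1) := by
            intro k
            by_cases hk : k = a'
            · rw [if_pos hk, if_pos hk, if_pos hk, hk, smul_eq_mul, hM, Matrix.of_apply]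
              ring
            · rw [if_neg hk, if_neg hk, if_neg hk, smul_eq_mul, hM, Matrix.of_apply]
              ring
          rw [Finset.sum_congr rfl fun k _ => h2 k, Finset.sum_add_distrib, Finset.sum_add_distrib,
            Finset.sum_ite_eq' Finset.univ a', if_pos (Finset.mem_univ _), ← Finset.mul_sum, hM,
            Matrix.of_apply]
          ring
        · have hk' : ¬ ((k : ℕ) + 1 = (a' : ℕ) + 1) := by
            intro h2
            exact hk (Fin.ext (by omega))
          rw [if_neg hk', if_neg hk, hM1, Matrix.updateCol_ne hk]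
          ring
      rw [h1, Matrix.det_mul, Matrix.det_diagonal, hM1, Matrix.det_updateCol_sum, if_pos rfl,
        smul_eq_mul]
      ring
  show M'.det / (q * st.2.2) ^ D = _ * (M.det / st.2.2 ^ D)
  rw [hdet, Finset.prod_div_distrib, Finset.prod_const, card_filter ha, mul_pow]
  field_simp

end Pool.HMS
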