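import Pool.Agent.H91.HMS.RLib
import Pool.Agent.H48.HMS.Bin

/-!
# HMS box 2, module RPT4: the cut loop is polynomial time
-/

set_option autoImplicit false

namespace Pool.HMS

open TMLib Finset Polynomial

namespace RPT4

theorem size_mul_le (a b : ℕ) : Nat.size (a * b) ≤ Nat.size a + Nat.size b := by
  rw [Nat.size_le, pow_add]
  exact Nat.mul_lt_mul'' (Nat.lt_size_self a) (Nat.lt_size_self b)

theorem size_pow_le (a t : ℕ) : Nat.size (a ^ t) ≤ t * Nat.size a + 1 := by
  rw [Nat.size_le, pow_succ, mul_comm t, pow_mul]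
  have h1 : a ^ t ≤ (2 ^ Nat.size a) ^ t := Nat.pow_le_pow_left (Nat.lt_size_self a).le t
  have h2 : 0 < (2 ^ Nat.size a) ^ t := by positivity
  omega

theorem size_le_self (a : ℕ) : Nat.size a ≤ a := by
  rw [Nat.size_le]
  exact Nat.lt_two_pow_self

theorem size_succ_le (a : ℕ) : Nat.size (a + 1) ≤ Nat.size a + 1 := by
  rw [Nat.size_le, pow_succ]
  have := Nat.lt_size_self a
  omega

theorem RSz.mono {D P Q M P' Q' M' : ℕ} {st : RS} (hP : P ≤ P') (hQ : Q ≤ Q') (hM : M ≤ M')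
    (h : RSz D P Q M st) : RSz D P' Q' M' st := by
  have hM' : (M : ℚ) ≤ M' := by exact_mod_cast hM
  obtain ⟨d, h1, h2, h3⟩ := h.denV
  obtain ⟨e, h4, h5, h6⟩ := h.denG
  exact ⟨h.lenV, h.rowV, h.lenG, h.rowG, ⟨d, h1, h2.trans hP, h3⟩, ⟨e, h4, h5.trans hQ, h6⟩,
    fun i j => (h.boundV i j).trans hM', fun i j => (h.boundG i j).trans hM',
    h.boundS.trans hM'⟩

theorem rsz_iter (h3 : S_RSZ0) (h4 : S_RSZ1) (h6 : S_RNUM) (h7 : S_RMAX) (D : ℕ) (B : ℚ)
    (O : Vec → Option Vec) (t : ℕ) :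
    RSz D (B.den * (20 * D ^ 3 + 1) ^ (D * t)) B.den
      (((2 * D + 1) * (B.num.natAbs + 1)) * (20 * D ^ 3 + 4) ^ t)
      ((rStep D O)^[t] (rInit D B)) := by
  induction t with
  | zero => simpa using h3 D B
  | succ t ih =>
    rw [Function.iterate_succ_apply']
    set st := (rStep D O)^[t] (rInit D B) with hst
    have hP : B.den * (20 * D ^ 3 + 1) ^ (D * (t + 1)) =
        B.den * (20 * D ^ 3 + 1) ^ (D * t) * (20 * D ^ 3 + 1) ^ D := by
      rw [mul_add, mul_one, pow_add]; ring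
    have hM : ((2 * D + 1) * (B.num.natAbs + 1)) * (20 * D ^ 3 + 4) ^ (t + 1) =
        ((2 * D + 1) * (B.num.natAbs + 1)) * (20 * D ^ 3 + 4) ^ t * (20 * D ^ 3 + 4) := by
      rw [pow_succ]; ring
    rw [hP, hM]
    unfold rStep
    cases hf : rFind D O st.1 with
    | none =>
      refine RSz.mono ?_ le_rfl ?_ ih
      · exact Nat.le_mul_of_pos_right _ (by positivity)
      · exact Nat.le_mul_of_pos_right _ (by positivity)
    | some s =>
      exact h4 D _ _ _ _ _ st (h7 D s st.1).1 ih fun j hj =>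
        ⟨(h6.1 D s st.1 j).1, (h6.1 D s st.1 j).2.1, (h6.1 D s st.1 j).2.2 hj⟩

/-- bound of the argument of the size polynomial -/
def kk (g : ℕ) : ℕ :=
  g + (g + (g * (32 * g ^ 4) * (20 * g ^ 3 + 1) + 1)) + g +
    (((2 * g + 1) + (g + 1)) + (32 * g ^ 4 * (20 * g ^ 3 + 4) + 1))

end RPT4

open RPT4 in
theorem rpt4_thm (h1 : S_RPT1) (h2 : S_RPT2) (h3 : S_RSZ0) (h4 : S_RSZ1) (h5 : S_RSZB)
    (h6 : S_RNUM) (h7 : S_RMAX) : S_RPT4 := by
  intro α _ O hO
  obtain ⟨T, hT⟩ := h5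
  have hF : PTime (fun p : (α × ℕ) × RS => (p.1, rStep p.1.2 (O p.1.1) p.2)) :=
    PTime.pair (PTime.fst PTime.id) (h1 α O hO)
  have hs : PTime (fun p : α × ℕ × ℚ => (((p.1, p.2.1), rInit p.2.1 p.2.2) : (α × ℕ) × RS)) :=
    PTime.pair (PTime.pair (PTime.fst PTime.id) (PTime.fst (PTime.snd PTime.id)))
      (h2.2.comp (PTime.snd PTime.id))
  have hn : PTime (fun p : α × ℕ × ℚ => rT p.2.1 p.2.2) := h2.1.comp (PTime.snd PTime.id)
  have hit : ∀ (i : ℕ) (a : α × ℕ) (st : RS),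
      (fun p : (α × ℕ) × RS => (p.1, rStep p.1.2 (O p.1.1) p.2))^[i] (a, st) =
        (a, (rStep a.2 (O a.1))^[i] st) := by
    intro i
    induction i with
    | zero => intro a st; rfl
    | succ i ih =>
      intro a st
      rw [Function.iterate_succ_apply, ih, Function.iterate_succ_apply]
  have hPB : PB (fun p : α × ℕ × ℚ => 1 + sz p + T.eval (kk (sz p))) := by
    refine ((PB.const 1).add PB.sz_self).add (PB.poly ?_ T)
    refine ⟨X + (X + (X * (32 * X ^ 4) * (20 * X ^ 3 + 1) + 1)) + X +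
      (((2 * X + 1) + (X + 1)) + (32 * X ^ 4 * (20 * X ^ 3 + 4) + 1)), fun a => le_of_eq ?_⟩
    unfold kk
    simp
  have hmain := PTime.iter hF hs hn hPB ?_
  · exact (PTime.snd hmain).congr fun p => by rw [hit]
  · rintro ⟨a, D, B⟩ i hi
    rw [hit]
    have hsz : sz ((a, D, B) : α × ℕ × ℚ) = 1 + sz a + (1 + sz D + sz B) := rfl
    have hsz2 : sz (((a, D), (rStep D (O a))^[i] (rInit D B)) : (α × ℕ) × RS) =
      1 + (1 + sz a + sz D) + sz ((rStep D (O a))^[i] (rInit D B)) := rfl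
    show sz (((a, D), (rStep D (O a))^[i] (rInit D B)) : (α × ℕ) × RS) ≤ _
    rw [hsz2]
    have hD : D ≤ sz ((a, D, B) : α × ℕ × ℚ) := by
      rw [hsz]
      have : D ≤ sz D := by simp; omega
      omega
    have hqb := qb_le_sz B
    have hd : Nat.size B.den ≤ sz ((a, D, B) : α × ℕ × ℚ) := by
      rw [hsz]
      have : Nat.size B.den ≤ qb B := le_max_right _ _
      omega
    have he : Nat.size B.num.natAbs ≤ sz ((a, D, B) : α × ℕ × ℚ) := by
      rw [hsz]
      have : Nat.size B.num.natAbs ≤ qb B := le_max_left _ _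
      omega
    set g := sz ((a, D, B) : α × ℕ × ℚ) with hg
    have hi' : i ≤ 32 * g ^ 4 := by
      have h8 : i ≤ 16 * D ^ 3 * (D + B.num.natAbs.size) := hi
      have h9 : 16 * D ^ 3 * (D + B.num.natAbs.size) ≤ 16 * g ^ 3 * (g + g) := by gcongr
      calc i ≤ _ := h8
        _ ≤ _ := h9
        _ = _ := by ring
    have h10 := hT D _ _ _ _ (rsz_iter h3 h4 h6 h7 D B (O a) i)
    refine le_trans (Nat.add_le_add_left (h10.trans (eval_mono T (?_ : _ ≤ kk g))) _) ?_
    · unfold kk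
      have hP : (B.den * (20 * D ^ 3 + 1) ^ (D * i)).size ≤
          g + (g * (32 * g ^ 4) * (20 * g ^ 3 + 1) + 1) := by
        refine (size_mul_le _ _).trans (Nat.add_le_add hd ((size_pow_le _ _).trans ?_))
        have : D * i * Nat.size (20 * D ^ 3 + 1) ≤ g * (32 * g ^ 4) * (20 * g ^ 3 + 1) := by
          have h11 : Nat.size (20 * D ^ 3 + 1) ≤ 20 * g ^ 3 + 1 :=
            (size_le_self _).trans (by gcongr)
          gcongr
        omega
      have hM : (((2 * D + 1) * (B.num.natAbs + 1)) * (20 * D ^ 3 + 4) ^ i).size ≤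
          ((2 * g + 1) + (g + 1)) + (32 * g ^ 4 * (20 * g ^ 3 + 4) + 1) := by
        refine (size_mul_le _ _).trans (Nat.add_le_add ((size_mul_le _ _).trans
          (Nat.add_le_add ?_ ?_)) ((size_pow_le _ _).trans ?_))
        · exact (size_le_self _).trans (by omega)
        · exact (size_succ_le _).trans (by omega)
        · have : i * Nat.size (20 * D ^ 3 + 4) ≤ 32 * g ^ 4 * (20 * g ^ 3 + 4) := by
            have h11 : Nat.size (20 * D ^ 3 + 4) ≤ 20 * g ^ 3 + 4 :=
              (size_le_self _).trans (by gcongr)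
            gcongr
          omega
      omega
    · omega

end Pool.HMS
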