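import Pool.Agent.H52.HMS.LBase

/-!
# HMS box 1, module LCRA: bound for the entries of `U` and `W` (Cramer)
-/

set_option autoImplicit false

namespace Pool.HMS

open TMLib Finset

namespace LCRA

theorem cramer_bound {D : ℕ} (G : Matrix (Fin D) (Fin D) ℚ) (M : ℚ) (hG : ∀ i j, |G i j| ≤ M)
    (hdet : 1 ≤ G.det) (w v : Fin D → ℚ) (hv : ∀ k, |v k| ≤ M)
    (h : ∀ k, ∑ j, w j * G j k = v k) (j : Fin D) : |w j| ≤ D.factorial * M ^ D := by
  have h1 : (G.updateRow j (∑ k, w k • G k)).det = w j • G.det := Matrix.det_updateRow_sum G j w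
  have h2 : (∑ k, w k • G k) = v := by
    funext k
    rw [Finset.sum_apply, ← h k]
    rfl
  rw [h2, smul_eq_mul] at h1
  have h3 : |(G.updateRow j v).det| ≤ D.factorial * M ^ D := by
    have h4 := Matrix.det_le (A := G.updateRow j v) (abv := AbsoluteValue.abs) (x := M) (by
      intro i k
      show |G.updateRow j v i k| ≤ M
      by_cases hij : i = j
      · rw [hij, Matrix.updateRow_self]
        exact hv k
      · rw [Matrix.updateRow_ne hij]
        exact hG i k)
    rw [Fintype.card_fin, nsmul_eq_mul] at h4
    exact h4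
  rw [h1, abs_mul, abs_of_pos (by linarith : 0 < G.det)] at h3
  have h4 : |w j| * 1 ≤ |w j| * G.det := by gcongr
  linarith

theorem isI_det {D : ℕ} (G : Matrix (Fin D) (Fin D) ℚ) (h : ∀ i j, IsI (G i j)) : IsI G.det := by
  choose z hz using h
  refine ⟨(Matrix.of z).det, ?_⟩
  have h1 : G = (Int.castRingHom ℚ).mapMatrix (Matrix.of z) := by
    ext i j
    rw [hz]
    simp
  rw [h1, ← RingHom.map_det]
  simp

theorem one_le_of_isI {x : ℚ} (h : IsI x) (hx : 0 < x) : 1 ≤ x := by
  obtain ⟨z, rfl⟩ := h
  have h1 : 0 < z := by exact_mod_cast hx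
  exact_mod_cast h1

/-- determinant of `L r Lᵀ` -/
theorem det_ldl {D : ℕ} {G L : ℕ → ℕ → ℚ} {r : ℕ → ℚ} (h : LDL D G L r) :
    (Matrix.of fun i j : Fin D => G i j).det = ∏ l ∈ range D, r l := by
  set P : Matrix (Fin D) (Fin D) ℚ := Matrix.of fun i j : Fin D => L i j with hP
  have h1 : (Matrix.of fun i j : Fin D => G i j) =
      P * Matrix.diagonal (fun l : Fin D => r l) * P.transpose := by
    ext i j
    rw [Matrix.mul_apply, Matrix.of_apply, h.eq i i.2 j j.2, Finset.sum_range]
    apply Finset.sum_congr rfl
    intro l _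
    rw [Matrix.mul_diagonal]
    rfl
  have h2 : P.det = 1 := by
    rw [Matrix.det_of_isLowerTriangular]
    · apply Finset.prod_eq_one
      intro i _
      exact h.one i i.2
    · intro i j hij
      exact h.tri i i.2 j j.2 hij
  rw [h1, Matrix.det_mul, Matrix.det_mul, Matrix.det_transpose, h2, Matrix.det_diagonal,
    Finset.prod_range]
  ring

theorem inner_le (m : ℕ) (x y : ℕ → ℚ) (M : ℚ) (hx : ∑ k ∈ range m, x k * x k ≤ M)
    (hy : ∑ k ∈ range m, y k * y k ≤ M) : |∑ k ∈ range m, x k * y k| ≤ M := by
  have h1 : 0 ≤ ∑ k ∈ range m, (x k - y k) ^ 2 := Finset.sum_nonneg fun _ _ => sq_nonneg _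
  have h2 : 0 ≤ ∑ k ∈ range m, (x k + y k) ^ 2 := Finset.sum_nonneg fun _ _ => sq_nonneg _
  have h3 : ∑ k ∈ range m, (x k - y k) ^ 2 = ∑ k ∈ range m, x k * x k +
      ∑ k ∈ range m, y k * y k - 2 * ∑ k ∈ range m, x k * y k := by
    rw [Finset.mul_sum, ← Finset.sum_add_distrib, ← Finset.sum_sub_distrib]
    exact Finset.sum_congr rfl fun _ _ => by ring
  have h4 : ∑ k ∈ range m, (x k + y k) ^ 2 = ∑ k ∈ range m, x k * x k +
      ∑ k ∈ range m, y k * y k + 2 * ∑ k ∈ range m, x k * y k := by
    rw [Finset.mul_sum, ← Finset.sum_add_distrib, ← Finset.sum_add_distrib]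
    exact Finset.sum_congr rfl fun _ _ => by ring
  rw [abs_le]
  constructor <;> linarith

theorem ent_of_le_row {D : ℕ} {U : Mat} (hl : U.length = D) {i : ℕ} (hi : D ≤ i) (j : ℕ) :
    ent U i j = 0 := by
  unfold ent
  rw [List.getD_eq_getElem?_getD, List.getElem?_eq_none (by omega)]
  rfl

theorem ent_of_le_col {D : ℕ} {U : Mat} (hr : ∀ r ∈ U, r.length = D) (i : ℕ) {j : ℕ}
    (hj : D ≤ j) : ent U i j = 0 := by
  unfold ent
  by_cases hi : i < U.length
  · have h1 : U.getD i [] = U[i] := by
      rw [List.getD_eq_getElem?_getD, List.getElem?_eq_getElem hi]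
      rfl
    rw [h1]
    apply fn_of_le
    rw [hr _ (List.getElem_mem hi)]
    exact hj
  · rw [List.getD_eq_getElem?_getD, List.getElem?_eq_none (by omega)]
    rfl

end LCRA

open LCRA in
theorem lcra_thm (h1 : S_LGRM) (h2 : S_LDGR) : S_LCRA := by
  intro D m B X M U W hV hU hMX hg
  obtain ⟨hm1, hsym, hint, -, hL⟩ := h1 D m B X U W hV hU
  have hM : 1 ≤ M := by
    have h6 : (1 : ℚ) ≤ m := by exact_mod_cast hm1
    have h7 : 1 ≤ X ^ 2 := one_le_pow₀ hV.ge
    nlinarith
  have hbd : 0 ≤ (D.factorial : ℚ) * M ^ D := by positivity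
  have hpos : 0 < ∏ l ∈ range D, rr (gr D m B U) l :=
    Finset.prod_pos fun l hl => hL.pos l (Finset.mem_range.1 hl)
  -- squared lengths of the rows of B
  have hB : ∀ c, ∑ k ∈ range m, ent B c k * ent B c k ≤ M := by
    intro c
    refine le_trans ?_ hMX
    have h3 := Finset.sum_le_card_nsmul (range m) (fun k => ent B c k * ent B c k) (X ^ 2)
      (fun k _ => by
        have h4 := hV.bd c k
        have h5 : ent B c k * ent B c k = |ent B c k| ^ 2 := by rw [sq_abs]; ring
        rw [h5]
        gcongr)
    rwa [Finset.card_range, nsmul_eq_mul] at h3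
  -- the two Gram matrices
  set G0 : Matrix (Fin D) (Fin D) ℚ :=
    Matrix.of fun c c' : Fin D => ∑ k ∈ range m, ent B c k * ent B c' k with hG0
  set G1 : Matrix (Fin D) (Fin D) ℚ := Matrix.of fun i j : Fin D => gr D m B U i j with hG1
  have hG0det : 1 ≤ G0.det := by
    apply one_le_of_isI
    · apply isI_det
      intro c c'
      show IsI (∑ k ∈ range m, ent B c k * ent B c' k)
      exact IsI.sum fun k _ => (hV.int _ _).mul (hV.int _ _)
    · rw [h2 D m B U W _ _ hU hL]
      exact hpos
  have hG1det : 1 ≤ G1.det := by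
    apply one_le_of_isI
    · apply isI_det
      intro i j
      exact hint i j
    · rw [det_ldl hL]
      exact hpos
  have hG0b : ∀ c c', |G0 c c'| ≤ M := fun c c' => inner_le m _ _ M (hB c) (hB c')
  have hG1b : ∀ i j, |G1 i j| ≤ M := fun i j => inner_le m _ _ M (hg i i.2) (hg j j.2)
  intro i j
  constructor
  · by_cases hi : i < D
    · by_cases hj : j < D
      · refine cramer_bound G0 M hG0b hG0det (fun c => ent U i c)
          (fun c' => ∑ k ∈ range m, bas D B U i k * ent B c' k)
          (fun c' => inner_le m _ _ M (hg i hi) (hB c')) ?_ ⟨j, hj⟩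
        intro c'
        have h3 : ∀ k, bas D B U i k * ent B c' k =
            ∑ c : Fin D, ent U i c * (ent B c k * ent B c' k) := by
          intro k
          unfold bas
          rw [Finset.sum_range, Finset.sum_mul]
          exact Finset.sum_congr rfl fun _ _ => by ring
        simp_rw [h3]
        rw [Finset.sum_comm]
        apply Finset.sum_congr rfl
        intro c _
        rw [hG0, Matrix.of_apply, Finset.mul_sum]
      · rw [ent_of_le_col hU.rowU i (by omega), abs_zero]
        exact hbd
    · rw [ent_of_le_row hU.lenU (by omega), abs_zero]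
      exact hbd
  · by_cases hi : i < D
    · by_cases hj : j < D
      · refine cramer_bound G1 M hG1b hG1det (fun a => ent W a j)
          (fun b => ∑ k ∈ range m, ent B j k * bas D B U b k)
          (fun b => inner_le m _ _ M (hB j) (hg b b.2)) ?_ ⟨i, hi⟩
        intro b
        -- Wᵀ U = 1
        set UM : Matrix (Fin D) (Fin D) ℚ := Matrix.of fun a c : Fin D => ent U a c with hUM
        set WM : Matrix (Fin D) (Fin D) ℚ := Matrix.of fun a c : Fin D => ent W a c with hWM
        have h3 : UM * WM.transpose = 1 := by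
          ext a c
          rw [Matrix.mul_apply, Matrix.one_apply]
          have h4 := hU.inv a a.2 c c.2
          rw [Finset.sum_range] at h4
          refine h4.trans ?_
          by_cases hac : a = c
          · rw [if_pos (by rw [hac]), if_pos hac]
          · rw [if_neg (fun h => hac (Fin.ext h)), if_neg hac]
        have h4 : WM.transpose * UM = 1 := mul_eq_one_comm.1 h3
        have h5 : ∀ c : Fin D, ∑ a : Fin D, ent W a j * ent U a c = if j = (c : ℕ) then 1 else 0 := by
          intro c
          have h6 := congrFun (congrFun h4 ⟨j, hj⟩) c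
          rw [Matrix.mul_apply, Matrix.one_apply] at h6
          refine Eq.trans ?_ (h6.trans ?_)
          · rfl
          · by_cases hjc : j = (c : ℕ)
            · rw [if_pos (Fin.ext hjc), if_pos hjc]
            · rw [if_neg (fun h => hjc (congrArg Fin.val h)), if_neg hjc]
        have h6 : ∀ k, ∑ a : Fin D, ent W a j * bas D B U a k = ent B j k := by
          intro k
          unfold bas
          simp_rw [Finset.sum_range, Finset.mul_sum]
          rw [Finset.sum_comm]
          have h7 : ∀ c : Fin D, ∑ a : Fin D, ent W a j * (ent U a c * ent B c k) =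
              (if j = (c : ℕ) then 1 else 0) * ent B c k := by
            intro c
            rw [← h5 c, Finset.sum_mul]
            exact Finset.sum_congr rfl fun _ _ => by ring
          rw [Finset.sum_congr rfl fun c _ => h7 c, Finset.sum_eq_single (⟨j, hj⟩ : Fin D)]
          · simp
          · intro c _ hc
            rw [if_neg (fun h => hc (Fin.ext h.symm)), zero_mul]
          · intro h; exact absurd (Finset.mem_univ _) h
        have h7 : ∀ a : Fin D, ent W a j * G1 a b =
            ∑ k ∈ range m, (ent W a j * bas D B U a k) * bas D B U b k := by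
          intro a
          rw [hG1, Matrix.of_apply]
          unfold gr
          rw [Finset.mul_sum]
          exact Finset.sum_congr rfl fun _ _ => by ring
        rw [Finset.sum_congr rfl fun a _ => h7 a, Finset.sum_comm]
        apply Finset.sum_congr rfl
        intro k _
        rw [← Finset.sum_mul, h6 k]
      · rw [ent_of_le_col hU.rowW i (by omega), abs_zero]
        exact hbd
    · rw [ent_of_le_row hU.lenW (by omega), abs_zero]
      exact hbd

end Pool.HMS
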